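import Pool.Agent.Helper40.MT.Final

/-!
# Hodge tensors of type `(2, 2)` and the Mumford-Tate group: definitions and exact statements

`U` is the Lie algebra (over `ℚ`) of the Mumford-Tate group of a polarised motive `M`: the matrices
which kill all Hodge tensors. If the Hodge tensors in `T^(2,2)` are fixed by the similitudes of the
polarisation, the Casimir element of `U` shows that `U` is an ideal of the Lie algebra of the
similitudes, and hence everything; so all Hodge tensors are fixed by the similitudes.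
-/

set_option autoImplicit false

open NumberField MU MT

namespace HD

/-- the tensor product of the matrices `M s` -/
def tpf {R : Type} [CommRing R] {n a : ℕ} (M : Fin a → Matrix (Fin n) (Fin n) R) :
    Matrix (Fin a → Fin n) (Fin a → Fin n) R :=
  fun i j => ∏ s, M s (i s) (j s)

/-- the action of the matrix `A` in the Lie algebra `gl_n` on the `a`-th tensor power of `R^n` -/
def dtp {R : Type} [CommRing R] {n : ℕ} (a : ℕ) (A : Matrix (Fin n) (Fin n) R) :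
    Matrix (Fin a → Fin n) (Fin a → Fin n) R :=
  ∑ s : Fin a, tpf (Function.update (fun _ : Fin a => (1 : Matrix (Fin n) (Fin n) R)) s A)

/-- the matrix `A` in the Lie algebra `gl_n` kills the tensor `t` -/
def Kill {R : Type} [CommRing R] {n a b : ℕ} (A : Matrix (Fin n) (Fin n) R)
    (t : Tensor n a b R) : Prop :=
  dtp a A * (Matrix.of t : Matrix (Fin a → Fin n) (Fin b → Fin n) R) =
    (Matrix.of t : Matrix (Fin a → Fin n) (Fin b → Fin n) R) * dtp b A

/-- IRR: the adjoint representation of the similitudes (transvections if `ψ` is alternating,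
reflections if `ψ` is symmetric). -/
def ST_IRR : Prop :=
  ∀ (n : ℕ) (ψ : Matrix (Fin n) (Fin n) ℚ) (W : Submodule ℚ (Matrix (Fin n) (Fin n) ℚ)),
    ψ.det ≠ 0 → (ψ.transpose = -ψ ∨ ψ.transpose = ψ) →
    (∀ g : Matrix.GeneralLinearGroup (Fin n) ℚ, g ∈ Sim ψ ℚ → ∀ A ∈ W,
      (g : Matrix (Fin n) (Fin n) ℚ) * A *
        ((g⁻¹ : Matrix.GeneralLinearGroup (Fin n) ℚ) : Matrix (Fin n) (Fin n) ℚ) ∈ W) →
    (1 : Matrix (Fin n) (Fin n) ℚ) ∈ W →
    (∀ A ∈ W, ∃ c : ℚ, A.transpose * ψ + ψ * A = c • ψ) →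
    (∃ A ∈ W, ∀ c : ℚ, A ≠ c • (1 : Matrix (Fin n) (Fin n) ℚ)) →
    ∀ A : Matrix (Fin n) (Fin n) ℚ, A.transpose * ψ + ψ * A = 0 → A ∈ W

/-- POS: positivity. The form `H(x, y) = ψ (C x) (conj y)`, `C = hz(i)`, is hermitian and positive,
and `C ψ⁻¹ Aᵀ ψ C⁻¹` is the adjoint of the real matrix `A`. -/
def ST_POS : Prop :=
  ∀ (F : Type) [Field F] [NumberField F] (S : Finset ℕ) (n w : ℕ) (h : Fin n → ℕ)
    (M : PMot F S n w h) (A : Matrix (Fin n) (Fin n) ℚ) (z : ℂˣ), (z : ℂ) = Complex.I →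
    (A.map (algebraMap ℚ ℂ) * ((hz M.hodge h w z : Matrix (Fin n) (Fin n) ℂ) *
      (M.ψ⁻¹ * A.transpose * M.ψ).map (algebraMap ℚ ℂ) *
        (((hz M.hodge h w z)⁻¹ : Matrix.GeneralLinearGroup (Fin n) ℂ) :
          Matrix (Fin n) (Fin n) ℂ))).trace = 0 → A = 0

/-- FIX: a tensor killed by the infinitesimal isometries is fixed by the similitudes (use
`isometry_vanish` over `ℚ` for the `ℚ`-span of the entries of `tp a X * t - t * tp a X`, then
`st_ISM`, and a square root of the multiplier in the algebraic closure of `K`). -/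
def ST_FIX : Prop :=
  ∀ (n a : ℕ) (ψ : Matrix (Fin n) (Fin n) ℚ) (t : Tensor n a a ℚ), ψ.det ≠ 0 →
    (ψ.transpose = -ψ ∨ (ψ.transpose = ψ ∧ Odd n)) →
    (∀ A : Matrix (Fin n) (Fin n) ℚ, A.transpose * ψ + ψ * A = 0 → Kill A t) →
    ∀ (K : Type) [Field K] [CharZero K], ∀ g ∈ Sim ψ K, act g (t.base K) = t.base K

/-- HOD: a Hodge tensor is killed by `B diag(h) B⁻¹`. -/
def ST_HOD : Prop :=
  ∀ (n w : ℕ) (h : Fin n → ℕ) (B : Matrix.GeneralLinearGroup (Fin n) ℂ) (a b : ℕ)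
    (t : Tensor n a b ℚ), 0 < w → (∀ j, h j ≤ w) →
    (∀ z : ℂˣ, act (hz B h w z) (t.base ℂ) = t.base ℂ) →
    (a = b ∨ t = 0) ∧
      Kill ((B : Matrix (Fin n) (Fin n) ℂ) * Matrix.diagonal (fun j => (h j : ℂ)) *
        ((B⁻¹ : Matrix.GeneralLinearGroup (Fin n) ℂ) : Matrix (Fin n) (Fin n) ℂ)) (t.base ℂ)

/-- CAS: the Casimir element. If the trace form is non-degenerate on `U`, with dual bases `A_k`,
`B_k`, take `Ω (i; j) = ∑ k, A_k (i 0) (j 0) * B_k (i 1) (j 1)`. -/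
def ST_CAS : Prop :=
  ∀ (n : ℕ) (U : Submodule ℚ (Matrix (Fin n) (Fin n) ℚ)),
    (∀ A ∈ U, (∀ B ∈ U, (A * B).trace = 0) → A = 0) →
    ∃ Ω : Tensor n 2 2 ℚ,
      (∀ g : Matrix.GeneralLinearGroup (Fin n) ℂ,
        (∀ X ∈ spn ℂ U, (g : Matrix (Fin n) (Fin n) ℂ) * X *
          ((g⁻¹ : Matrix.GeneralLinearGroup (Fin n) ℂ) : Matrix (Fin n) (Fin n) ℂ) ∈ spn ℂ U) →
        (∀ X ∈ spn ℂ U, ((g⁻¹ : Matrix.GeneralLinearGroup (Fin n) ℂ) :
          Matrix (Fin n) (Fin n) ℂ) * X * (g : Matrix (Fin n) (Fin n) ℂ) ∈ spn ℂ U) →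
        act g (Ω.base ℂ) = Ω.base ℂ) ∧
      (∀ g : Matrix.GeneralLinearGroup (Fin n) ℚ, act g Ω = Ω → ∀ A ∈ U,
        (g : Matrix (Fin n) (Fin n) ℚ) * A *
          ((g⁻¹ : Matrix.GeneralLinearGroup (Fin n) ℚ) : Matrix (Fin n) (Fin n) ℚ) ∈ U)

variable {F : Type} [Field F] [NumberField F] {S : Finset ℕ} {n w : ℕ} {h : Fin n → ℕ}

/-- the Lie algebra of the Mumford-Tate group: the matrices which kill all Hodge tensors -/
def Killers (M : PMot F S n w h) : Set (Matrix (Fin n) (Fin n) ℚ) :=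
  {A | ∀ (a b : ℕ) (t : Tensor n a b ℚ), M.IsHodge t → Kill A t}

/-- HODGE22: if the Hodge tensors in `T^(2,2)` are fixed by the rational similitudes of the
polarisation, all Hodge tensors are fixed by all similitudes. -/
def ST_HODGE22 : Prop :=
  ∀ (F : Type) [Field F] [NumberField F] (S : Finset ℕ) (n w : ℕ) (h : Fin n → ℕ)
    (M : PMot F S n w h), 0 < w →
    (M.ψ.transpose = -M.ψ ∨ (M.ψ.transpose = M.ψ ∧ Odd n)) →
    (∀ t : Tensor n 2 2 ℚ, M.IsHodge t → ∀ g : Matrix.GeneralLinearGroup (Fin n) ℚ,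
      g ∈ Sim M.ψ ℚ → act g t = t) →
    ∀ (K : Type) [Field K] [CharZero K] (a b : ℕ) (t : Tensor n a b ℚ), M.IsHodge t →
      ∀ g ∈ Sim M.ψ K, act g (t.base K) = t.base K

end HD
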