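import Pool.Agent.Helper6.HD.Hod

/-!
# Hodge tensors of type `(2, 2)`: the main argument
-/

set_option autoImplicit false

open NumberField MU MT

namespace HD

section Two

variable {R : Type} [CommRing R] {n : ℕ}

theorem dtp_two (A : Matrix (Fin n) (Fin n) R) :
    dtp 2 A = tpf ![A, 1] + tpf ![1, A] := by
  unfold dtp
  rw [Fin.sum_univ_two]
  congr 2
  · funext s
    fin_cases s <;> rfl
  · funext s
    fin_cases s <;> rfl

theorem tpf_two_polT (X Y psi' psi : Matrix (Fin n) (Fin n) R) (i j : Fin 2 → Fin n) :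
    (tpf ![X, Y] * polT psi' psi) i j =
      (X * psi' * Y.transpose) (i 0) (i 1) * psi (j 0) (j 1) := by
  rw [Matrix.mul_apply, ← Equiv.sum_comp (finTwoArrowEquiv (Fin n)).symm,
    Fintype.sum_prod_type, Matrix.mul_apply, Finset.sum_mul, Finset.sum_comm]
  refine Finset.sum_congr rfl fun y _ => ?_
  rw [Matrix.mul_apply, Finset.sum_mul, Finset.sum_mul]
  refine Finset.sum_congr rfl fun x _ => ?_
  simp only [tpf, polT, Fin.prod_univ_two, finTwoArrowEquiv_symm_apply, Matrix.cons_val_zero,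
    Matrix.cons_val_one, Matrix.transpose_apply]
  ring

theorem polT_tpf_two (X Y psi' psi : Matrix (Fin n) (Fin n) R) (i j : Fin 2 → Fin n) :
    (polT psi' psi * tpf ![X, Y]) i j =
      psi' (i 0) (i 1) * (X.transpose * psi * Y) (j 0) (j 1) := by
  rw [Matrix.mul_apply, ← Equiv.sum_comp (finTwoArrowEquiv (Fin n)).symm,
    Fintype.sum_prod_type, Matrix.mul_apply, Finset.mul_sum, Finset.sum_comm]
  refine Finset.sum_congr rfl fun y _ => ?_
  rw [Matrix.mul_apply, Finset.sum_mul, Finset.mul_sum]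
  refine Finset.sum_congr rfl fun x _ => ?_
  simp only [tpf, polT, Fin.prod_univ_two, finTwoArrowEquiv_symm_apply, Matrix.cons_val_zero,
    Matrix.cons_val_one, Matrix.transpose_apply]
  ring

end Two

/-- the matrices which kill the polarisation are infinitesimal similitudes -/
theorem kill_pol {n : ℕ} (ψ A : Matrix (Fin n) (Fin n) ℚ) (hψ : ψ.det ≠ 0)
    (hA : Kill A (polTen ψ)) : ∃ c : ℚ, A.transpose * ψ + ψ * A = c • ψ := by
  rcases Nat.eq_zero_or_pos n with h0 | h0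
  · subst h0
    exact ⟨0, Subsingleton.elim _ _⟩
  have hu : IsUnit ψ.det := isUnit_iff_ne_zero.mpr hψ
  have hne : ∃ i j, ψ⁻¹ i j ≠ 0 := by
    by_contra hcon
    push Not at hcon
    have h0' : ψ⁻¹ = 0 := by ext i j; exact hcon i j
    have h1 := Matrix.mul_nonsing_inv ψ hu
    rw [h0', Matrix.mul_zero] at h1
    have h2 := congrFun (congrFun h1 ⟨0, h0⟩) ⟨0, h0⟩
    simp at h2
  obtain ⟨i0, i1, hi⟩ := hne
  unfold Kill at hA
  have hp : (Matrix.of (polTen ψ) : Matrix (Fin 2 → Fin n) (Fin 2 → Fin n) ℚ) = polT ψ⁻¹ ψ := rfl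
  rw [hp, dtp_two, Matrix.add_mul, Matrix.mul_add] at hA
  refine ⟨(ψ⁻¹ i0 i1)⁻¹ * ((A * ψ⁻¹ + ψ⁻¹ * A.transpose) i0 i1), ?_⟩
  ext j0 j1
  have h1 := congrFun (congrFun hA ![i0, i1]) ![j0, j1]
  rw [Matrix.add_apply, Matrix.add_apply, tpf_two_polT, tpf_two_polT, polT_tpf_two,
    polT_tpf_two] at h1
  simp only [Matrix.cons_val_zero, Matrix.cons_val_one, Matrix.transpose_one, Matrix.mul_one,
    Matrix.one_mul] at h1
  rw [Matrix.smul_apply, smul_eq_mul, Matrix.add_apply, Matrix.add_apply]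
  have h2 : ψ⁻¹ i0 i1 * ((A.transpose * ψ) j0 j1 + (ψ * A) j0 j1) =
      ((A * ψ⁻¹) i0 i1 + (ψ⁻¹ * A.transpose) i0 i1) * ψ j0 j1 := by
    linarith [h1]
  rw [mul_assoc, ← h2, ← mul_assoc, inv_mul_cancel₀ hi, one_mul]

section Mot

variable {F : Type} [Field F] [NumberField F] {S : Finset ℕ} {n w : ℕ} {h : Fin n → ℕ}

theorem hodge_pol (M : PMot F S n w h) : M.IsHodge (polTen M.ψ) :=
  fun z => M.mot_hodge 2 2 _ M.mot_pol z

theorem hodge_deg (M : PMot F S n w h) (hw : 0 < w) {a b : ℕ} (t : Tensor n a b ℚ)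
    (ht : M.IsHodge t) : a = b ∨ t = 0 :=
  (st_HOD n w h M.hodge a b t hw M.hodge_le ht).1

theorem one_mem_mlie (M : PMot F S n w h) (hw : 0 < w) :
    (1 : Matrix (Fin n) (Fin n) ℚ) ∈ mlie M := by
  intro a b t ht
  rcases hodge_deg M hw t ht with h1 | h1
  · subst h1
    exact kill_one t
  · subst h1
    exact kill_zero_tensor _

theorem mlie_sim (M : PMot F S n w h) (A : Matrix (Fin n) (Fin n) ℚ) (hA : A ∈ mlie M) :
    ∃ c : ℚ, A.transpose * M.ψ + M.ψ * A = c • M.ψ :=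
  kill_pol M.ψ A M.ψ_det (hA 2 2 _ (hodge_pol M))

theorem mlie_star (M : PMot F S n w h) (hw : 0 < w) (A : Matrix (Fin n) (Fin n) ℚ)
    (hA : A ∈ mlie M) : M.ψ⁻¹ * A.transpose * M.ψ ∈ mlie M := by
  obtain ⟨c, hc⟩ := mlie_sim M A hA
  have hu : IsUnit M.ψ.det := isUnit_iff_ne_zero.mpr M.ψ_det
  have h1 : M.ψ⁻¹ * A.transpose * M.ψ = c • (1 : Matrix (Fin n) (Fin n) ℚ) - A := by
    have h2 : A.transpose * M.ψ = c • M.ψ - M.ψ * A := by
      rw [← hc]
      abel
    rw [Matrix.mul_assoc, h2, Matrix.mul_sub, Matrix.mul_smul, Matrix.nonsing_inv_mul _ hu,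
      ← Matrix.mul_assoc, Matrix.nonsing_inv_mul _ hu, Matrix.one_mul]
  rw [h1]
  exact (mlie M).sub_mem ((mlie M).smul_mem c (one_mem_mlie M hw)) hA

theorem spn_conj_hz (M : PMot F S n w h) (g : Matrix.GeneralLinearGroup (Fin n) ℂ)
    (hg : ∀ (a b : ℕ) (t : Tensor n a b ℚ), M.IsHodge t → act g (t.base ℂ) = t.base ℂ)
    (X : Matrix (Fin n) (Fin n) ℂ) (hX : X ∈ spn ℂ (mlie M)) :
    (g : Matrix (Fin n) (Fin n) ℂ) * X *
      ((g⁻¹ : Matrix.GeneralLinearGroup (Fin n) ℂ) : Matrix (Fin n) (Fin n) ℂ) ∈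
        spn ℂ (mlie M) := by
  rw [mem_spn_mlie] at hX ⊢
  intro a b t ht
  have h1 := (hX a b t ht).conj g
  rw [hg a b t ht] at h1
  exact h1

theorem hz_fix_inv (M : PMot F S n w h) (z : ℂˣ) (a b : ℕ) (t : Tensor n a b ℚ)
    (ht : M.IsHodge t) : act (hz M.hodge h w z)⁻¹ (t.base ℂ) = t.base ℂ := by
  have h1 := ht z
  conv_lhs => rw [← h1]
  rw [act_mul, inv_mul_cancel, act_one]

theorem trace_spn {U : Submodule ℚ (Matrix (Fin n) (Fin n) ℚ)} (A : Matrix (Fin n) (Fin n) ℚ)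
    (hA : ∀ B ∈ U, (A * B).trace = 0) (X : Matrix (Fin n) (Fin n) ℂ) (hX : X ∈ spn ℂ U) :
    (A.map (algebraMap ℚ ℂ) * X).trace = 0 := by
  unfold spn at hX
  induction hX using Submodule.span_induction with
  | mem x hx =>
    obtain ⟨B, hB, rfl⟩ := hx
    have h1 := hA B hB
    have h2 : (A.map (algebraMap ℚ ℂ) * B.map (algebraMap ℚ ℂ)).trace =
        algebraMap ℚ ℂ (A * B).trace := by
      rw [← Matrix.map_mul, Matrix.trace, Matrix.trace, map_sum]
      rfl
    rw [h2, h1, map_zero]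
  | zero => rw [Matrix.mul_zero, Matrix.trace_zero]
  | add x y _ _ hx hy => rw [Matrix.mul_add, Matrix.trace_add, hx, hy, add_zero]
  | smul c x _ hx => rw [Matrix.mul_smul, Matrix.trace_smul, hx, smul_zero]

theorem mlie_nondeg (pos : ST_POS) (M : PMot F S n w h) (hw : 0 < w)
    (A : Matrix (Fin n) (Fin n) ℚ) (hA : A ∈ mlie M)
    (hAB : ∀ B ∈ mlie M, (A * B).trace = 0) : A = 0 := by
  refine pos F S n w h M A (Units.mk0 Complex.I Complex.I_ne_zero) rfl ?_
  refine trace_spn A hAB _ ?_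
  refine spn_conj_hz M _ (fun a b t ht => ht _) _ ?_
  exact Submodule.subset_span ⟨_, mlie_star M hw A hA, rfl⟩

/-- the derivative of the Hodge cocharacter is in the Lie algebra -/
theorem hodge_mem_spn (M : PMot F S n w h) (hw : 0 < w) :
    (M.hodge : Matrix (Fin n) (Fin n) ℂ) * Matrix.diagonal (fun j => (h j : ℂ)) *
      ((M.hodge⁻¹ : Matrix.GeneralLinearGroup (Fin n) ℂ) : Matrix (Fin n) (Fin n) ℂ) ∈
        spn ℂ (mlie M) := by
  rw [mem_spn_mlie]
  intro a b t ht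
  exact (st_HOD n w h M.hodge a b t hw M.hodge_le ht).2

/-- if the Lie algebra is scalar, all tensors in `T^(2,2)` are Hodge -/
theorem all_hodge (M : PMot F S n w h) (hw : 0 < w)
    (hU : ∀ A ∈ mlie M, ∃ c : ℚ, A = c • (1 : Matrix (Fin n) (Fin n) ℚ)) (t : Tensor n 2 2 ℚ) :
    M.IsHodge t := by
  have h1 : ∀ X ∈ spn ℂ (mlie M), ∃ c : ℂ, X = c • (1 : Matrix (Fin n) (Fin n) ℂ) := by
    intro X hX
    unfold spn at hX
    induction hX using Submodule.span_induction with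
    | mem x hx =>
      obtain ⟨B, hB, rfl⟩ := hx
      obtain ⟨c, rfl⟩ := hU B hB
      refine ⟨algebraMap ℚ ℂ c, ?_⟩
      ext i j
      by_cases hij : i = j
      · subst hij
        simp
      · simp [Matrix.one_apply_ne hij]
    | zero => exact ⟨0, (zero_smul _ _).symm⟩
    | add x y _ _ hx hy =>
      obtain ⟨c, rfl⟩ := hx
      obtain ⟨d, rfl⟩ := hy
      exact ⟨c + d, (add_smul _ _ _).symm⟩
    | smul c x _ hx =>
      obtain ⟨d, rfl⟩ := hx
      exact ⟨c * d, smul_smul _ _ _⟩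
  obtain ⟨c, hc⟩ := h1 _ (hodge_mem_spn M hw)
  have h2 : Matrix.diagonal (fun j => (h j : ℂ)) = c • (1 : Matrix (Fin n) (Fin n) ℂ) := by
    calc Matrix.diagonal (fun j => (h j : ℂ))
        = ((M.hodge⁻¹ : Matrix.GeneralLinearGroup (Fin n) ℂ) : Matrix (Fin n) (Fin n) ℂ) *
        ((M.hodge : Matrix (Fin n) (Fin n) ℂ) * Matrix.diagonal (fun j => (h j : ℂ)) *
      ((M.hodge⁻¹ : Matrix.GeneralLinearGroup (Fin n) ℂ) : Matrix (Fin n) (Fin n) ℂ)) *
        (M.hodge : Matrix (Fin n) (Fin n) ℂ) := by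
          simp only [Matrix.mul_assoc]
          rw [Units.inv_mul, Matrix.mul_one, ← Matrix.mul_assoc, Units.inv_mul, Matrix.one_mul]
      _ = c • 1 := by
          rw [hc, Matrix.mul_smul, Matrix.smul_mul, Matrix.mul_one, Units.inv_mul]
  have h3 : ∀ j, (h j : ℂ) = c := by
    intro j
    have h4 := congrFun (congrFun h2 j) j
    rw [Matrix.diagonal_apply_eq, Matrix.smul_apply, Matrix.one_apply_eq, smul_eq_mul,
      mul_one] at h4
    exact h4
  intro z
  rw [act_fix_iff, hz_coe]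
  rcases Nat.eq_zero_or_pos n with h0 | h0
  · subst h0
    ext i j
    exact (i 0).elim0
  have h4 : ∀ j, h j = h ⟨0, h0⟩ := by
    intro j
    have h5 := (h3 j).trans (h3 ⟨0, h0⟩).symm
    exact_mod_cast h5
  have h5 : (M.hodge : Matrix (Fin n) (Fin n) ℂ) *
        Matrix.diagonal (fun j => (z : ℂ) ^ h j * (starRingEnd ℂ) (z : ℂ) ^ (w - h j)) *
      ((M.hodge⁻¹ : Matrix.GeneralLinearGroup (Fin n) ℂ) : Matrix (Fin n) (Fin n) ℂ) =
      ((z : ℂ) ^ h ⟨0, h0⟩ * (starRingEnd ℂ) (z : ℂ) ^ (w - h ⟨0, h0⟩)) •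
        (1 : Matrix (Fin n) (Fin n) ℂ) := by
    have h6 : Matrix.diagonal (fun j => (z : ℂ) ^ h j * (starRingEnd ℂ) (z : ℂ) ^ (w - h j)) =
        ((z : ℂ) ^ h ⟨0, h0⟩ * (starRingEnd ℂ) (z : ℂ) ^ (w - h ⟨0, h0⟩)) •
          (1 : Matrix (Fin n) (Fin n) ℂ) := by
      rw [← Matrix.diagonal_one, ← Matrix.diagonal_smul]
      congr 1
      funext j
      rw [h4 j, Pi.smul_apply, smul_eq_mul, mul_one]
    rw [h6, Matrix.mul_smul, Matrix.smul_mul, Matrix.mul_one, Units.mul_inv]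
  rw [h5]
  have h6 : ∀ c : ℂ, MT.tp 2 (c • (1 : Matrix (Fin n) (Fin n) ℂ)) = (c * c) • 1 := by
    intro c
    have h7 : c • (1 : Matrix (Fin n) (Fin n) ℂ) = Matrix.diagonal fun _ => c := by
      rw [← Matrix.diagonal_one, ← Matrix.diagonal_smul]
      congr 1
      funext j
      rw [Pi.smul_apply, smul_eq_mul, mul_one]
    rw [h7, tp_diagonal]
    ext i j
    by_cases hij : i = j
    · subst hij
      simp [sq]
    · simp [hij]
  rw [h6, Matrix.smul_mul, Matrix.mul_smul, Matrix.one_mul, Matrix.mul_one]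

end Mot

/-- a matrix whose tensor square is central is scalar -/
theorem scalar_of_fix {n : ℕ} (g : Matrix.GeneralLinearGroup (Fin n) ℚ)
    (hg : ∀ t : Tensor n 2 2 ℚ, act g t = t) :
    ∃ c : ℚ, (g : Matrix (Fin n) (Fin n) ℚ) = c • (1 : Matrix (Fin n) (Fin n) ℚ) := by
  rcases Nat.eq_zero_or_pos n with h0 | h0
  · subst h0
    exact ⟨0, Subsingleton.elim _ _⟩
  have h1 : ∀ X : Matrix (Fin 2 → Fin n) (Fin 2 → Fin n) ℚ,
      MT.tp 2 (g : Matrix (Fin n) (Fin n) ℚ) * X = X * MT.tp 2 (g : Matrix (Fin n) (Fin n) ℚ) := by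
    intro X
    have h2 := (act_fix_iff g (fun i j => X i j : Tensor n 2 2 ℚ)).mp (hg _)
    exact h2
  have h2 : ∀ p q r s : Fin 2 → Fin n, MT.tp 2 (g : Matrix (Fin n) (Fin n) ℚ) r p *
      (if q = s then (1 : ℚ) else 0) = (if r = p then (1 : ℚ) else 0) *
        MT.tp 2 (g : Matrix (Fin n) (Fin n) ℚ) q s := by
    intro p q r s
    have h3 := congrFun (congrFun (h1 (Matrix.single p q 1)) r) s
    rw [Matrix.mul_apply, Matrix.mul_apply] at h3
    rw [Finset.sum_eq_single p, Finset.sum_eq_single q] at h3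
    · by_cases hqs : q = s
      · subst hqs
        by_cases hrp : r = p
        · subst hrp
          simpa [Matrix.single] using h3
        · have hpr : p ≠ r := fun h => hrp h.symm
          simpa [Matrix.single, hrp, hpr] using h3
      · by_cases hrp : r = p
        · subst hrp
          simpa [Matrix.single, hqs] using h3
        · have hpr : p ≠ r := fun h => hrp h.symm
          simp [hqs, hrp]
    · intro x _ hx
      simp [Matrix.single, hx.symm]
    · intro hx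
      exact absurd (Finset.mem_univ _) hx
    · intro x _ hx
      simp [Matrix.single, hx.symm]
    · intro hx
      exact absurd (Finset.mem_univ _) hx
  have htp : ∀ a b c d : Fin n, MT.tp 2 (g : Matrix (Fin n) (Fin n) ℚ) ![a, b] ![c, d] =
      (g : Matrix (Fin n) (Fin n) ℚ) a c * (g : Matrix (Fin n) (Fin n) ℚ) b d := by
    intro a b c d
    simp [MT.tp, Fin.prod_univ_two]
  have hoff : ∀ i j : Fin n, i ≠ j → (g : Matrix (Fin n) (Fin n) ℚ) i j = 0 := by
    intro i j hij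
    have h3 := h2 ![j, j] ![i, i] ![i, i] ![i, i]
    have h4 : (![i, i] : Fin 2 → Fin n) ≠ ![j, j] := by
      intro h5
      exact hij (congrFun h5 0)
    rw [if_pos rfl, if_neg h4, htp, mul_one, zero_mul] at h3
    exact mul_self_eq_zero.mp h3
  have hdiag : ∀ i j : Fin n, (g : Matrix (Fin n) (Fin n) ℚ) i i =
      (g : Matrix (Fin n) (Fin n) ℚ) j j := by
    intro i j
    have h3 := h2 ![i, i] ![i, j] ![i, i] ![i, j]
    rw [if_pos rfl, if_pos rfl, htp, htp, mul_one, one_mul] at h3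
    have h4 : (g : Matrix (Fin n) (Fin n) ℚ) i i ≠ 0 := by
      intro h5
      have h6 : (g : Matrix (Fin n) (Fin n) ℚ).det = 0 := by
        apply Matrix.det_eq_zero_of_row_eq_zero i
        intro k
        by_cases hik : i = k
        · subst hik
          exact h5
        · exact hoff i k hik
      exact (isUnit_iff_ne_zero.mp ((Matrix.isUnit_iff_isUnit_det _).mp g.isUnit)) h6
    exact mul_left_cancel₀ h4 h3
  refine ⟨(g : Matrix (Fin n) (Fin n) ℚ) ⟨0, h0⟩ ⟨0, h0⟩, ?_⟩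
  ext i j
  by_cases hij : i = j
  · subst hij
    rw [Matrix.smul_apply, Matrix.one_apply_eq, smul_eq_mul, mul_one]
    exact hdiag i _
  · rw [Matrix.smul_apply, Matrix.one_apply_ne hij, smul_zero]
    exact hoff i j hij

/-- if all similitudes are scalar, all infinitesimal isometries are scalar (Cayley transform) -/
theorem scalar_of_sim {n : ℕ} (ψ A : Matrix (Fin n) (Fin n) ℚ) (hψ : ψ.det ≠ 0)
    (hs : ∀ g : Matrix.GeneralLinearGroup (Fin n) ℚ, g ∈ Sim ψ ℚ → ∃ c : ℚ,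
      (g : Matrix (Fin n) (Fin n) ℚ) = c • (1 : Matrix (Fin n) (Fin n) ℚ))
    (hA : A.transpose * ψ + ψ * A = 0) :
    ∃ c : ℚ, A = c • (1 : Matrix (Fin n) (Fin n) ℚ) := by
  rcases Nat.eq_zero_or_pos n with h0 | h0
  · subst h0
    exact ⟨0, Subsingleton.elim _ _⟩
  -- a rational number which is not an eigenvalue of `A` or `-A`
  obtain ⟨x, hx'⟩ : ∃ x : ℚ, (Polynomial.X * (A.charpoly * (-A).charpoly)).eval x ≠ 0 := by
    by_contra hcon
    push Not at hcon
    have h1 : Polynomial.X * (A.charpoly * (-A).charpoly) = 0 := by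
      apply Polynomial.funext
      intro x
      rw [hcon x, Polynomial.eval_zero]
    exact (mul_ne_zero Polynomial.X_ne_zero
      ((A.charpoly_monic.mul (-A).charpoly_monic).ne_zero)) h1
  rw [Polynomial.eval_mul, Polynomial.eval_X] at hx'
  have hx0 : x ≠ 0 := left_ne_zero_of_mul hx'
  have hx := right_ne_zero_of_mul hx'
  rw [Polynomial.eval_mul] at hx
  have hx1 : (Matrix.scalar (Fin n) x - A).det ≠ 0 := by
    rw [← Matrix.eval_charpoly]
    exact left_ne_zero_of_mul hx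
  have hx2 : (Matrix.scalar (Fin n) x + A).det ≠ 0 := by
    have h1 := right_ne_zero_of_mul hx
    rw [Matrix.eval_charpoly, sub_neg_eq_add] at h1
    exact h1
  set P := Matrix.scalar (Fin n) x + A with hP
  set Q := Matrix.scalar (Fin n) x - A with hQ
  have hsc : Matrix.scalar (Fin n) x = x • (1 : Matrix (Fin n) (Fin n) ℚ) := by
    rw [Matrix.scalar_apply, ← Matrix.diagonal_one, ← Matrix.diagonal_smul]
    congr 1
    funext j
    rw [Pi.smul_apply, smul_eq_mul, mul_one]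
  have hPQ : P.transpose * ψ * P = Q.transpose * ψ * Q := by
    have h1 : P.transpose * ψ * P - Q.transpose * ψ * Q =
        (2 * x) • (A.transpose * ψ + ψ * A) := by
      rw [hP, hQ, hsc]
      simp only [Matrix.transpose_add, Matrix.transpose_sub, Matrix.transpose_smul,
        Matrix.transpose_one, Matrix.add_mul, Matrix.sub_mul, Matrix.mul_add, Matrix.mul_sub,
        Matrix.smul_mul, Matrix.mul_smul, Matrix.one_mul, Matrix.mul_one]
      rw [mul_smul, two_smul]
      simp only [smul_add, smul_sub]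
      abel
    rw [hA, smul_zero] at h1
    exact sub_eq_zero.mp h1
  let p : Matrix.GeneralLinearGroup (Fin n) ℚ := Matrix.GeneralLinearGroup.mkOfDetNeZero P hx2
  let q : Matrix.GeneralLinearGroup (Fin n) ℚ := Matrix.GeneralLinearGroup.mkOfDetNeZero Q hx1
  have hp : (p : Matrix (Fin n) (Fin n) ℚ) = P := rfl
  have hq : (q : Matrix (Fin n) (Fin n) ℚ) = Q := rfl
  have hqt : ((q⁻¹ : Matrix.GeneralLinearGroup (Fin n) ℚ) :
      Matrix (Fin n) (Fin n) ℚ).transpose * Q.transpose = 1 := by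
    rw [← Matrix.transpose_mul, ← hq, Units.mul_inv, Matrix.transpose_one]
  have hbas : bas ℚ ψ = ψ := by
    ext i j
    simp [bas]
  have hsim : p * q⁻¹ ∈ Sim ψ ℚ := by
    refine ⟨1, ?_⟩
    rw [hbas, Units.val_mul, Matrix.transpose_mul, hp, one_smul]
    calc ((q⁻¹ : Matrix.GeneralLinearGroup (Fin n) ℚ) :
          Matrix (Fin n) (Fin n) ℚ).transpose * P.transpose * ψ *
          (P * ((q⁻¹ : Matrix.GeneralLinearGroup (Fin n) ℚ) : Matrix (Fin n) (Fin n) ℚ))
        = ((q⁻¹ : Matrix.GeneralLinearGroup (Fin n) ℚ) :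
          Matrix (Fin n) (Fin n) ℚ).transpose * (P.transpose * ψ * P) *
          ((q⁻¹ : Matrix.GeneralLinearGroup (Fin n) ℚ) : Matrix (Fin n) (Fin n) ℚ) := by
          simp only [Matrix.mul_assoc]
      _ = ((q⁻¹ : Matrix.GeneralLinearGroup (Fin n) ℚ) :
          Matrix (Fin n) (Fin n) ℚ).transpose * Q.transpose * ψ *
          (Q * ((q⁻¹ : Matrix.GeneralLinearGroup (Fin n) ℚ) : Matrix (Fin n) (Fin n) ℚ)) := by
          rw [hPQ]
          simp only [Matrix.mul_assoc]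
      _ = ψ := by
          rw [hqt, ← hq, Units.mul_inv, Matrix.one_mul, Matrix.mul_one]
  obtain ⟨c, hc⟩ := hs _ hsim
  have hPc : P = c • Q := by
    have h1 : P = ((p * q⁻¹ : Matrix.GeneralLinearGroup (Fin n) ℚ) :
        Matrix (Fin n) (Fin n) ℚ) * Q := by
      rw [Units.val_mul, hp, Matrix.mul_assoc, ← hq, Units.inv_mul, Matrix.mul_one]
    rw [h1, hc, Matrix.smul_mul, Matrix.one_mul]
  rw [hP, hQ, hsc] at hPc
  have h1 : (1 + c) • A = ((c - 1) * x) • (1 : Matrix (Fin n) (Fin n) ℚ) := by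
    have h2 : (1 + c) • A - ((c - 1) * x) • (1 : Matrix (Fin n) (Fin n) ℚ) =
        (x • (1 : Matrix (Fin n) (Fin n) ℚ) + A) -
          c • (x • (1 : Matrix (Fin n) (Fin n) ℚ) - A) := by
      rw [smul_sub, smul_smul, add_smul, one_smul, sub_mul, one_mul, sub_smul]
      abel
    rw [← sub_eq_zero, h2, hPc, sub_self]
  by_cases hc1 : 1 + c = 0
  · exfalso
    rw [hc1, zero_smul] at h1
    have h2 := congrFun (congrFun h1 ⟨0, h0⟩) ⟨0, h0⟩
    rw [Matrix.zero_apply, Matrix.smul_apply, Matrix.one_apply_eq, smul_eq_mul, mul_one] at h2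
    have hc2 : c = -1 := by linarith
    rw [hc2] at h2
    exact hx0 (by linarith)
  · refine ⟨(1 + c)⁻¹ * ((c - 1) * x), ?_⟩
    rw [mul_smul, ← h1, smul_smul, inv_mul_cancel₀ hc1, one_smul]

/-- if the Hodge tensors in `T^(2,2)` are fixed by the similitudes, the Lie algebra contains all
infinitesimal isometries -/
theorem mlie_full (irr : ST_IRR) (pos : ST_POS) (cas : ST_CAS) {F : Type} [Field F]
    [NumberField F] {S : Finset ℕ} {n w : ℕ} {h : Fin n → ℕ} (M : PMot F S n w h) (hw : 0 < w)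
    (hsym : M.ψ.transpose = -M.ψ ∨ M.ψ.transpose = M.ψ)
    (h22 : ∀ t : Tensor n 2 2 ℚ, M.IsHodge t → ∀ g : Matrix.GeneralLinearGroup (Fin n) ℚ,
      g ∈ Sim M.ψ ℚ → act g t = t)
    (A : Matrix (Fin n) (Fin n) ℚ) (hA : A.transpose * M.ψ + M.ψ * A = 0) : A ∈ mlie M := by
  by_cases hsc : ∀ A ∈ mlie M, ∃ c : ℚ, A = c • (1 : Matrix (Fin n) (Fin n) ℚ)
  · obtain ⟨c, rfl⟩ := scalar_of_sim M.ψ A M.ψ_det
      (fun g hg => scalar_of_fix g fun t => h22 t (all_hodge M hw hsc t) g hg) hA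
    exact (mlie M).smul_mem c (one_mem_mlie M hw)
  · push Not at hsc
    obtain ⟨Ω, hΩ1, hΩ2⟩ := cas n (mlie M) (fun A hA hAB => mlie_nondeg pos M hw A hA hAB)
    have hΩ : M.IsHodge Ω := by
      intro z
      refine hΩ1 _ (spn_conj_hz M _ fun a b t ht => ht z) ?_
      have h1 := spn_conj_hz M (hz M.hodge h w z)⁻¹ fun a b t ht => hz_fix_inv M z a b t ht
      rw [inv_inv] at h1
      exact h1
    exact irr n M.ψ (mlie M) M.ψ_det hsym (fun g hg => hΩ2 g (h22 Ω hΩ g hg))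
      (one_mem_mlie M hw) (mlie_sim M) hsc A hA

/-- HODGE22 -/
theorem st_HODGE22 (irr : ST_IRR) (pos : ST_POS) (fix : ST_FIX) (cas : ST_CAS) :
    ST_HODGE22 := by
  intro F _ _ S n w h M hw hpar h22 K _ _ a b t ht g hg
  have hsym : M.ψ.transpose = -M.ψ ∨ M.ψ.transpose = M.ψ := by
    rcases hpar with h1 | ⟨h1, -⟩
    · exact Or.inl h1
    · exact Or.inr h1
  rcases hodge_deg M hw t ht with h1 | h1
  · subst h1
    exact fix n a M.ψ t M.ψ_det hpar (fun A hA => mlie_full irr pos cas M hw hsym h22 A hA a a t ht)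
      K g hg
  · subst h1
    have h2 : (0 : Tensor n a b ℚ).base K = 0 := by
      funext i j
      simp [Tensor.base]
    rw [h2, act_eq]
    have h3 : (Matrix.of (0 : Tensor n a b K) : Matrix (Fin a → Fin n) (Fin b → Fin n) K) =
        0 := rfl
    rw [h3, Matrix.mul_zero, Matrix.zero_mul]
    rfl

end HD
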