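import Pool.Agent.Helper6.HD.Final
import Pool.Agent.Helper18.HD.CAS
import Pool.Agent.Helper19.HD.IRR
import Pool.Agent.Helper25.HD.POS
import Pool.Agent.Helper85.HD.FIX

/-!
# Hodge, Tate and absolute Hodge classes: the final theorem
-/

set_option autoImplicit false

open NumberField MU MT

namespace HD

theorem hodge22 : ST_HODGE22 := st_HODGE22 st_IRR st_POS st_FIX st_CAS

/-- the theorem -/
theorem all (F : Type) [Field F] [NumberField F] (S : Finset ℕ) (hS : ∀ p ∈ S, p.Prime)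
    (n w : ℕ) (hw : 0 < w) (h : Fin n → ℕ) (M : PMot F S n w h) (l : ℕ) [Fact l.Prime]
    (p₀ : ℕ) (hp₀ : p₀.Prime) (hM : M.Mum l p₀) (hL : M.Large l) :
    (∀ (a b : ℕ) (t : Tensor n a b ℚ), IsTate M l t → M.IsHodge t ∧
      ∀ (l' : ℕ) [Fact l'.Prime] (g : Gal F), act (M.ρ l' g) (t.base ℚ_[l']) = t.base ℚ_[l']) ∧
    (Closed M → ∀ (a b : ℕ) (t : Tensor n a b ℚ), t ∈ M.mot a b ↔ IsTate M l t) ∧
    ((∀ t : Tensor n 2 2 ℚ, M.IsHodge t → IsTate M l t) →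
      (∀ (a b : ℕ) (t : Tensor n a b ℚ), M.IsHodge t ↔ IsTate M l t) ∧
      (Closed M → ∀ (a b : ℕ) (t : Tensor n a b ℚ), M.IsHodge t ↔ t ∈ M.mot a b) ∧
      ∀ (K : Type) [Field K] [CharZero K], M.Gsigma K = Sim M.ψ K) :=
  final_of hodge22 M hw l (fun K _ _ H hH => zc_eq hS M hw l p₀ hp₀ hM hL K H hH)
    (parity_of_mum hS M l p₀ hp₀ hM hL)

end HD
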