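import Pool.Agent.Helper6.HD.Defs

/-!
# Basic properties of the action of matrices on tensors
-/

set_option autoImplicit false

open NumberField MU MT

namespace HD

section Ring

variable {R : Type} [CommRing R] {n : ℕ}

theorem tpf_mul {a : ℕ} (M N : Fin a → Matrix (Fin n) (Fin n) R) :
    tpf M * tpf N = tpf (fun s => M s * N s) := by
  ext i j
  have h1 : tpf (fun s => M s * N s) i j = ∏ s, ∑ x, M s (i s) x * N s x (j s) := by
    unfold tpf
    simp only [Matrix.mul_apply]
  rw [h1, Finset.prod_univ_sum, Matrix.mul_apply]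
  simp only [Fintype.piFinset_univ, Finset.prod_mul_distrib, tpf]

theorem tp_eq (a : ℕ) (X : Matrix (Fin n) (Fin n) R) : tp a X = tpf (fun _ : Fin a => X) := rfl

theorem tpf_update {a : ℕ} (M : Fin a → Matrix (Fin n) (Fin n) R) (s : Fin a)
    (Y : Matrix (Fin n) (Fin n) R) (i j : Fin a → Fin n) :
    tpf (Function.update M s Y) i j =
      Y (i s) (j s) * ∏ r ∈ Finset.univ \ {s}, M r (i r) (j r) := by
  have h1 : tpf (Function.update M s Y) i j =
      ∏ r, Function.update (fun r => M r (i r) (j r)) s (Y (i s) (j s)) r := by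
    unfold tpf
    refine Finset.prod_congr rfl fun r _ => ?_
    by_cases h : r = s
    · subst h
      rw [Function.update_self, Function.update_self]
    · rw [Function.update_of_ne h, Function.update_of_ne h]
  rw [h1, Finset.prod_update_of_mem (Finset.mem_univ s)]

theorem tp_mul_dtp (a : ℕ) (X A : Matrix (Fin n) (Fin n) R) :
    tp a X * dtp a A = ∑ s : Fin a, tpf (Function.update (fun _ : Fin a => X) s (X * A)) := by
  unfold dtp
  rw [Finset.mul_sum]
  refine Finset.sum_congr rfl fun s _ => ?_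
  rw [tp_eq, tpf_mul]
  congr 1
  funext r
  by_cases h : r = s
  · subst h
    rw [Function.update_self, Function.update_self]
  · rw [Function.update_of_ne h, Function.update_of_ne h, mul_one]

theorem dtp_mul_tp (a : ℕ) (X A : Matrix (Fin n) (Fin n) R) :
    dtp a A * tp a X = ∑ s : Fin a, tpf (Function.update (fun _ : Fin a => X) s (A * X)) := by
  unfold dtp
  rw [Finset.sum_mul]
  refine Finset.sum_congr rfl fun s _ => ?_
  rw [tp_eq, tpf_mul]
  congr 1
  funext r
  by_cases h : r = s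
  · subst h
    rw [Function.update_self, Function.update_self]
  · rw [Function.update_of_ne h, Function.update_of_ne h, one_mul]

theorem dtp_conj (a : ℕ) (g : Matrix.GeneralLinearGroup (Fin n) R)
    (A : Matrix (Fin n) (Fin n) R) :
    dtp a ((g : Matrix (Fin n) (Fin n) R) * A *
      ((g⁻¹ : Matrix.GeneralLinearGroup (Fin n) R) : Matrix (Fin n) (Fin n) R)) *
        tp a (g : Matrix (Fin n) (Fin n) R) =
      tp a (g : Matrix (Fin n) (Fin n) R) * dtp a A := by
  rw [dtp_mul_tp, tp_mul_dtp]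
  refine Finset.sum_congr rfl fun s _ => ?_
  rw [Matrix.mul_assoc, Units.inv_mul, Matrix.mul_one]

theorem dtp_add (a : ℕ) (A B : Matrix (Fin n) (Fin n) R) :
    dtp a (A + B) = dtp a A + dtp a B := by
  unfold dtp
  rw [← Finset.sum_add_distrib]
  refine Finset.sum_congr rfl fun s _ => ?_
  ext i j
  rw [Matrix.add_apply, tpf_update, tpf_update, tpf_update, Matrix.add_apply, add_mul]

theorem dtp_smul (a : ℕ) (c : R) (A : Matrix (Fin n) (Fin n) R) :
    dtp a (c • A) = c • dtp a A := by
  unfold dtp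
  rw [Finset.smul_sum]
  refine Finset.sum_congr rfl fun s _ => ?_
  ext i j
  rw [Matrix.smul_apply, tpf_update, tpf_update, Matrix.smul_apply, smul_eq_mul, smul_eq_mul,
    mul_assoc]

/-- `dtp` as a linear map -/
def dtpL (a : ℕ) : Matrix (Fin n) (Fin n) R →ₗ[R] Matrix (Fin a → Fin n) (Fin a → Fin n) R where
  toFun := dtp a
  map_add' := dtp_add a
  map_smul' := dtp_smul a

theorem dtpL_apply (a : ℕ) (A : Matrix (Fin n) (Fin n) R) : dtpL a A = dtp a A := rfl

theorem dtp_zero (a : ℕ) : dtp a (0 : Matrix (Fin n) (Fin n) R) = 0 := by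
  rw [← dtpL_apply, map_zero]

theorem tpf_map {R' : Type} [CommRing R'] (φ : R →+* R') {a : ℕ}
    (M : Fin a → Matrix (Fin n) (Fin n) R) : (tpf M).map φ = tpf (fun s => (M s).map φ) := by
  ext i j
  simp only [tpf, Matrix.map_apply, map_prod]

theorem dtp_map {R' : Type} [CommRing R'] (φ : R →+* R') (a : ℕ)
    (A : Matrix (Fin n) (Fin n) R) : (dtp a A).map φ = dtp a (A.map φ) := by
  unfold dtp
  ext i j
  rw [Matrix.map_apply, Matrix.sum_apply, Matrix.sum_apply, map_sum]
  refine Finset.sum_congr rfl fun s _ => ?_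
  rw [tpf_update, tpf_update, map_mul, map_prod, Matrix.map_apply]
  congr 1
  refine Finset.prod_congr rfl fun r _ => ?_
  rw [← Matrix.map_apply (f := φ), Matrix.map_one φ (map_zero φ) (map_one φ)]

theorem dtp_one (a : ℕ) : dtp a (1 : Matrix (Fin n) (Fin n) R) = (a : R) • 1 := by
  unfold dtp
  have h1 : ∀ s : Fin a, tpf (Function.update (fun _ : Fin a => (1 : Matrix (Fin n) (Fin n) R)) s 1)
      = 1 := by
    intro s
    have h2 : Function.update (fun _ : Fin a => (1 : Matrix (Fin n) (Fin n) R)) s 1 =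
        fun _ => 1 := Function.update_eq_self s _
    rw [h2, ← tp_eq, tp_one]
  rw [Finset.sum_congr rfl fun s _ => h1 s, Finset.sum_const, Finset.card_univ, Fintype.card_fin,
    Nat.cast_smul_eq_nsmul]

theorem kill_one {a : ℕ} (t : Tensor n a a R) : Kill (1 : Matrix (Fin n) (Fin n) R) t := by
  unfold Kill
  rw [dtp_one, Matrix.smul_mul, Matrix.mul_smul, Matrix.one_mul, Matrix.mul_one]

theorem kill_zero_tensor {a b : ℕ} (A : Matrix (Fin n) (Fin n) R) :
    Kill A (0 : Tensor n a b R) := by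
  unfold Kill
  have h1 : (Matrix.of (0 : Tensor n a b R) : Matrix (Fin a → Fin n) (Fin b → Fin n) R) = 0 := rfl
  rw [h1, Matrix.mul_zero, Matrix.zero_mul]

theorem Kill.add {a b : ℕ} {A B : Matrix (Fin n) (Fin n) R} {t : Tensor n a b R}
    (hA : Kill A t) (hB : Kill B t) : Kill (A + B) t := by
  unfold Kill at *
  rw [dtp_add, dtp_add, Matrix.add_mul, Matrix.mul_add, hA, hB]

theorem Kill.smul {a b : ℕ} {A : Matrix (Fin n) (Fin n) R} {t : Tensor n a b R}
    (c : R) (hA : Kill A t) : Kill (c • A) t := by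
  unfold Kill at *
  rw [dtp_smul, dtp_smul, Matrix.smul_mul, Matrix.mul_smul, hA]

theorem kill_zero {a b : ℕ} (t : Tensor n a b R) : Kill (0 : Matrix (Fin n) (Fin n) R) t := by
  unfold Kill
  rw [dtp_zero, dtp_zero, Matrix.mul_zero, Matrix.zero_mul]

theorem Kill.map {R' : Type} [CommRing R'] (φ : R →+* R') {a b : ℕ}
    {A : Matrix (Fin n) (Fin n) R} {t : Tensor n a b R} (hA : Kill A t) :
    Kill (A.map φ) (fun i j => φ (t i j) : Tensor n a b R') := by
  unfold Kill at *
  have h1 := congrArg (fun X : Matrix (Fin a → Fin n) (Fin b → Fin n) R => X.map φ) hA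
  simp only [Matrix.map_mul] at h1
  rw [dtp_map, dtp_map] at h1
  exact h1

end Ring

section Fld

variable {K : Type} [Field K] {n : ℕ}

theorem tp_inv_left (b : ℕ) (g : Matrix.GeneralLinearGroup (Fin n) K) :
    tp b ((g⁻¹ : Matrix.GeneralLinearGroup (Fin n) K) : Matrix (Fin n) (Fin n) K) *
      tp b (g : Matrix (Fin n) (Fin n) K) = 1 := by
  rw [← tp_mul, Units.inv_mul, tp_one]

theorem tp_inv_right (b : ℕ) (g : Matrix.GeneralLinearGroup (Fin n) K) :
    tp b (g : Matrix (Fin n) (Fin n) K) *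
      tp b ((g⁻¹ : Matrix.GeneralLinearGroup (Fin n) K) : Matrix (Fin n) (Fin n) K) = 1 := by
  rw [← tp_mul, Units.mul_inv, tp_one]

/-- equivariance -/
theorem Kill.conj {a b : ℕ} {A : Matrix (Fin n) (Fin n) K} {t : Tensor n a b K}
    (hA : Kill A t) (g : Matrix.GeneralLinearGroup (Fin n) K) :
    Kill ((g : Matrix (Fin n) (Fin n) K) * A *
      ((g⁻¹ : Matrix.GeneralLinearGroup (Fin n) K) : Matrix (Fin n) (Fin n) K)) (act g t) := by
  unfold Kill at *
  have h0 : (Matrix.of (act g t) : Matrix (Fin a → Fin n) (Fin b → Fin n) K) =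
      tp a (g : Matrix (Fin n) (Fin n) K) * Matrix.of t *
        tp b ((g⁻¹ : Matrix.GeneralLinearGroup (Fin n) K) : Matrix (Fin n) (Fin n) K) := by
    rw [act_eq]
    rfl
  have h1 := dtp_conj a g A
  have h2 : tp b ((g⁻¹ : Matrix.GeneralLinearGroup (Fin n) K) : Matrix (Fin n) (Fin n) K) *
      dtp b ((g : Matrix (Fin n) (Fin n) K) * A *
        ((g⁻¹ : Matrix.GeneralLinearGroup (Fin n) K) : Matrix (Fin n) (Fin n) K)) =
      dtp b A *
        tp b ((g⁻¹ : Matrix.GeneralLinearGroup (Fin n) K) : Matrix (Fin n) (Fin n) K) := by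
    have h3 := dtp_conj b g A
    calc tp b ((g⁻¹ : Matrix.GeneralLinearGroup (Fin n) K) : Matrix (Fin n) (Fin n) K) *
        dtp b ((g : Matrix (Fin n) (Fin n) K) * A *
          ((g⁻¹ : Matrix.GeneralLinearGroup (Fin n) K) : Matrix (Fin n) (Fin n) K))
        = tp b ((g⁻¹ : Matrix.GeneralLinearGroup (Fin n) K) : Matrix (Fin n) (Fin n) K) *
        (dtp b ((g : Matrix (Fin n) (Fin n) K) * A *
          ((g⁻¹ : Matrix.GeneralLinearGroup (Fin n) K) : Matrix (Fin n) (Fin n) K)) *
          tp b (g : Matrix (Fin n) (Fin n) K)) *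
          tp b ((g⁻¹ : Matrix.GeneralLinearGroup (Fin n) K) : Matrix (Fin n) (Fin n) K) := by
          simp only [Matrix.mul_assoc]
          rw [tp_inv_right, Matrix.mul_one]
      _ = tp b ((g⁻¹ : Matrix.GeneralLinearGroup (Fin n) K) : Matrix (Fin n) (Fin n) K) *
        (tp b (g : Matrix (Fin n) (Fin n) K) * dtp b A) *
          tp b ((g⁻¹ : Matrix.GeneralLinearGroup (Fin n) K) : Matrix (Fin n) (Fin n) K) := by
          rw [h3]
      _ = _ := by
          rw [← Matrix.mul_assoc, tp_inv_left, Matrix.one_mul]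
  rw [h0]
  calc dtp a ((g : Matrix (Fin n) (Fin n) K) * A *
        ((g⁻¹ : Matrix.GeneralLinearGroup (Fin n) K) : Matrix (Fin n) (Fin n) K)) *
        (tp a (g : Matrix (Fin n) (Fin n) K) * Matrix.of t *
          tp b ((g⁻¹ : Matrix.GeneralLinearGroup (Fin n) K) : Matrix (Fin n) (Fin n) K))
      = dtp a ((g : Matrix (Fin n) (Fin n) K) * A *
        ((g⁻¹ : Matrix.GeneralLinearGroup (Fin n) K) : Matrix (Fin n) (Fin n) K)) *
        tp a (g : Matrix (Fin n) (Fin n) K) * Matrix.of t *
          tp b ((g⁻¹ : Matrix.GeneralLinearGroup (Fin n) K) : Matrix (Fin n) (Fin n) K) := by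
        simp only [Matrix.mul_assoc]
    _ = tp a (g : Matrix (Fin n) (Fin n) K) * (dtp a A * Matrix.of t) *
          tp b ((g⁻¹ : Matrix.GeneralLinearGroup (Fin n) K) : Matrix (Fin n) (Fin n) K) := by
        rw [h1]
        simp only [Matrix.mul_assoc]
    _ = tp a (g : Matrix (Fin n) (Fin n) K) * Matrix.of t * (dtp b A *
          tp b ((g⁻¹ : Matrix.GeneralLinearGroup (Fin n) K) : Matrix (Fin n) (Fin n) K)) := by
        rw [hA]
        simp only [Matrix.mul_assoc]
    _ = _ := by
        rw [← h2]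
        simp only [Matrix.mul_assoc]

end Fld

section Mot

variable {F : Type} [Field F] [NumberField F] {S : Finset ℕ} {n w : ℕ} {h : Fin n → ℕ}

/-- the Lie algebra of the Mumford-Tate group as a subspace -/
def mlie (M : PMot F S n w h) : Submodule ℚ (Matrix (Fin n) (Fin n) ℚ) where
  carrier := Killers M
  add_mem' := fun hA hB a b t ht => (hA a b t ht).add (hB a b t ht)
  zero_mem' := fun _ _ t _ => kill_zero t
  smul_mem' := fun c _ hA a b t ht => (hA a b t ht).smul c

theorem mem_mlie (M : PMot F S n w h) (A : Matrix (Fin n) (Fin n) ℚ) :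
    A ∈ mlie M ↔ ∀ (a b : ℕ) (t : Tensor n a b ℚ), M.IsHodge t → Kill A t := Iff.rfl

theorem sum_single (K : Type) [Field K] {a b : ℕ} (t : Tensor n a b K)
    (A : Matrix (Fin n) (Fin n) K) (p : Fin a → Fin n) (q : Fin b → Fin n) :
    ∑ i, ∑ j, A i j * (dtp a (Matrix.single i j (1 : K)) *
        (Matrix.of t : Matrix (Fin a → Fin n) (Fin b → Fin n) K) -
      (Matrix.of t : Matrix (Fin a → Fin n) (Fin b → Fin n) K) *
        dtp b (Matrix.single i j (1 : K))) p q =
      (dtp a A * (Matrix.of t : Matrix (Fin a → Fin n) (Fin b → Fin n) K) -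
        (Matrix.of t : Matrix (Fin a → Fin n) (Fin b → Fin n) K) * dtp b A) p q := by
  have h1 : ∀ c : ℕ, dtp c A = ∑ i, ∑ j, A i j • dtp c (Matrix.single i j (1 : K)) := by
    intro c
    conv_lhs => rw [Matrix.matrix_eq_sum_single A]
    rw [← dtpL_apply, map_sum]
    refine Finset.sum_congr rfl fun i _ => ?_
    rw [map_sum]
    refine Finset.sum_congr rfl fun j _ => ?_
    rw [← dtpL_apply, ← map_smul, Matrix.smul_single, smul_eq_mul, mul_one]
  rw [h1 a, h1 b, Matrix.sub_apply, Matrix.sum_mul, Matrix.mul_sum, Matrix.sum_apply,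
    Matrix.sum_apply, ← Finset.sum_sub_distrib]
  refine Finset.sum_congr rfl fun i _ => ?_
  rw [Matrix.sum_mul, Matrix.mul_sum, Matrix.sum_apply, Matrix.sum_apply,
    ← Finset.sum_sub_distrib]
  refine Finset.sum_congr rfl fun j _ => ?_
  rw [Matrix.smul_mul, Matrix.mul_smul, Matrix.smul_apply, Matrix.smul_apply, Matrix.sub_apply,
    smul_eq_mul, smul_eq_mul, mul_sub]

/-- the complex matrices which kill all Hodge tensors -/
theorem mem_spn_mlie (M : PMot F S n w h) (X : Matrix (Fin n) (Fin n) ℂ) :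
    X ∈ spn ℂ (mlie M) ↔ ∀ (a b : ℕ) (t : Tensor n a b ℚ), M.IsHodge t → Kill X (t.base ℂ) := by
  constructor
  · intro hX a b t ht
    unfold spn at hX
    induction hX using Submodule.span_induction with
    | mem x hx =>
      obtain ⟨A, hA, rfl⟩ := hx
      have h1 := (hA a b t ht).map (algebraMap ℚ ℂ)
      have h2 : (fun i j => algebraMap ℚ ℂ (t i j) : Tensor n a b ℂ) = t.base ℂ := by
        funext i j
        simp [Tensor.base]
      rw [h2] at h1
      exact h1
    | zero => exact kill_zero _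
    | add x y _ _ hx hy => exact hx.add hy
    | smul c x _ hx => exact hx.smul c
  · intro hX
    refine mem_span_of_forms
      (I := Σ (a : ℕ) (b : ℕ), {t : Tensor n a b ℚ // M.IsHodge t} × (Fin a → Fin n) ×
        (Fin b → Fin n))
      (fun f i j => (dtp f.1 (Matrix.single i j (1 : ℚ)) *
        (Matrix.of f.2.2.1.1 : Matrix (Fin f.1 → Fin n) (Fin f.2.1 → Fin n) ℚ) -
      (Matrix.of f.2.2.1.1 : Matrix (Fin f.1 → Fin n) (Fin f.2.1 → Fin n) ℚ) *
        dtp f.2.1 (Matrix.single i j (1 : ℚ))) f.2.2.2.1 f.2.2.2.2) (mlie M) ?_ ℂ X ?_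
    · intro A hA a b t ht
      unfold Kill
      rw [← sub_eq_zero]
      ext p q
      rw [← sum_single ℚ t A p q]
      exact hA ⟨a, b, ⟨t, ht⟩, p, q⟩
    · rintro ⟨a, b, ⟨t, ht⟩, p, q⟩
      have h1 := hX a b t ht
      unfold Kill at h1
      rw [← sub_eq_zero] at h1
      have h2 := sum_single ℂ (t.base ℂ) X p q
      rw [h1, Matrix.zero_apply] at h2
      rw [← h2]
      refine Finset.sum_congr rfl fun i _ => Finset.sum_congr rfl fun j _ => ?_
      congr 1
      have h3 : (Matrix.of (t.base ℂ) : Matrix (Fin a → Fin n) (Fin b → Fin n) ℂ) =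
          (Matrix.of t : Matrix (Fin a → Fin n) (Fin b → Fin n) ℚ).map (algebraMap ℚ ℂ) := by
        ext p q
        simp [Tensor.base]
      have h4 : (Matrix.single i j (1 : ℂ)) = (Matrix.single i j (1 : ℚ)).map (algebraMap ℚ ℂ) := by
        ext p q
        simp only [Matrix.single, Matrix.of_apply, Matrix.map_apply]
        split_ifs <;> simp
      rw [h3, h4, ← dtp_map, ← dtp_map, ← Matrix.map_mul, ← Matrix.map_mul]
      exact map_sub (algebraMap ℚ ℂ) _ _

end Mot

end HD
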