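import Pool.Agent.Helper6.HD.Main

/-!
# Hodge, Tate and absolute Hodge classes: the final theorem (up to the modules)
-/

set_option autoImplicit false

open NumberField MU MT

namespace HD

theorem act_base {n a b : ℕ} {K K' : Type} [Field K] [Field K'] (φ : K →+* K')
    (g : Matrix.GeneralLinearGroup (Fin n) K) (t : Tensor n a b ℚ) :
    act (Matrix.GeneralLinearGroup.map φ g) (t.base K') =
      fun i j => φ (act g (t.base K) i j) := by
  funext i j
  unfold act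
  rw [map_sum]
  refine Finset.sum_congr rfl fun i' _ => ?_
  rw [map_sum]
  refine Finset.sum_congr rfl fun j' _ => ?_
  rw [map_mul, map_mul, map_prod, map_prod, ← map_inv]
  have h1 : (t.base K' i' j' : K') = φ (t.base K i' j') := by
    simp [Tensor.base]
  rw [h1]
  rfl

theorem act_base_iff {n a b : ℕ} {K K' : Type} [Field K] [Field K'] (φ : K →+* K')
    (g : Matrix.GeneralLinearGroup (Fin n) K) (t : Tensor n a b ℚ) :
    act (Matrix.GeneralLinearGroup.map φ g) (t.base K') = t.base K' ↔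
      act g (t.base K) = t.base K := by
  rw [act_base]
  have h1 : (t.base K' : Tensor n a b K') = fun i j => φ (t.base K i j) := by
    funext i j
    simp [Tensor.base]
  rw [h1]
  constructor
  · intro h
    funext i j
    exact φ.injective (congrFun (congrFun h i) j)
  · intro h
    rw [h]

theorem base_rat {n a b : ℕ} (t : Tensor n a b ℚ) : t.base ℚ = t := by
  funext i j
  simp [Tensor.base]

theorem sim_map {n : ℕ} {K K' : Type} [Field K] [Field K'] (φ : K →+* K')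
    (ψ : Matrix (Fin n) (Fin n) ℚ) (g : Matrix.GeneralLinearGroup (Fin n) K)
    (hg : g ∈ Sim ψ K) : Matrix.GeneralLinearGroup.map φ g ∈ Sim ψ K' := by
  obtain ⟨c, hc⟩ := hg
  refine ⟨φ c, ?_⟩
  have h1 := congrArg (fun X : Matrix (Fin n) (Fin n) K => X.map φ) hc
  simp only [Matrix.map_mul] at h1
  have h2 : (c • bas K ψ).map φ = φ c • bas K' ψ := by
    ext i j
    simp [bas]
  rw [h2, bas_map] at h1
  exact h1

section Mot

variable {F : Type} [Field F] [NumberField F] {S : Finset ℕ} {n w : ℕ} {h : Fin n → ℕ}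

/-- the rational tensor `t` is a Tate class: its `l`-adic component is invariant under an open
subgroup of the Galois group -/
def IsTate (M : PMot F S n w h) (l : ℕ) [Fact l.Prime] {a b : ℕ} (t : Tensor n a b ℚ) : Prop :=
  ∃ H : Subgroup (Gal F), IsOpen (H : Set (Gal F)) ∧
    ∀ g ∈ H, act (M.ρ l g) (t.base ℚ_[l]) = t.base ℚ_[l]

/-- The motivic classes of `M` are closed in the Tannakian sense: they are all the rational
tensors fixed by the motivic Galois group (Deligne: absolute Hodge classes have this property). -/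
def Closed (M : PMot F S n w h) : Prop :=
  ∀ (a b : ℕ) (t : Tensor n a b ℚ), (∀ g ∈ M.Gmot ℂ, act g (t.base ℂ) = t.base ℂ) → t ∈ M.mot a b

/-- parity -/
theorem parity (M : PMot F S n w h) (l : ℕ) [Fact l.Prime]
    (hpar : (bas ℚ_[l] M.ψ).transpose = -bas ℚ_[l] M.ψ ∨
      ((bas ℚ_[l] M.ψ).transpose = bas ℚ_[l] M.ψ ∧ Odd n)) :
    M.ψ.transpose = -M.ψ ∨ (M.ψ.transpose = M.ψ ∧ Odd n) := by
  have h0 : ∀ X Y : Matrix (Fin n) (Fin n) ℚ, bas ℚ_[l] X = bas ℚ_[l] Y → X = Y := by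
    intro X Y hXY
    ext i j
    have h1 := congrFun (congrFun hXY i) j
    have h2 : ((X i j : ℚ) : ℚ_[l]) = ((Y i j : ℚ) : ℚ_[l]) := h1
    exact_mod_cast h2
  rcases hpar with h1 | ⟨h1, h2⟩
  · left
    apply h0
    have h3 : bas ℚ_[l] (-M.ψ) = -bas ℚ_[l] M.ψ := by
      ext i j
      simp [bas]
    rw [h3, ← h1]
    rfl
  · right
    refine ⟨?_, h2⟩
    apply h0
    rw [← h1]
    simp [bas, Matrix.transpose_map]

/-- the similitudes over any field fix the Tate classes -/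
theorem sim_fix_tate (M : PMot F S n w h) (l : ℕ) [Fact l.Prime]
    (hZ : ∀ (K : Type) [Field K] [Algebra ℚ_[l] K] (H : Subgroup (Gal F)),
      IsOpen (H : Set (Gal F)) → ZC (M.ρ l '' H) K = Sim M.ψ K)
    {a b : ℕ} (t : Tensor n a b ℚ) (ht : IsTate M l t) (K : Type) [Field K] [CharZero K]
    (g : Matrix.GeneralLinearGroup (Fin n) K) (hg : g ∈ Sim M.ψ K) :
    act g (t.base K) = t.base K := by
  obtain ⟨H, hH, hfix⟩ := ht
  obtain ⟨Ω, _, _, i₁, i₂, -⟩ := exists_common ℚ K ℚ_[l]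
  let _ : Algebra ℚ_[l] Ω := i₂.toAlgebra
  have h1 := sim_map i₁ M.ψ g hg
  rw [← hZ Ω H hH] at h1
  have h2 := st_TEN.1 ℚ_[l] n a b (M.ρ l '' H) t (by
    rintro _ ⟨s, hs, rfl⟩
    exact hfix s hs) Ω _ h1
  exact (act_base_iff i₁ g t).mp h2

/-- the theorem, up to the modules -/
theorem final_of (h22 : ST_HODGE22) (M : PMot F S n w h) (hw : 0 < w) (l : ℕ) [Fact l.Prime]
    (hZ : ∀ (K : Type) [Field K] [Algebra ℚ_[l] K] (H : Subgroup (Gal F)),
      IsOpen (H : Set (Gal F)) → ZC (M.ρ l '' H) K = Sim M.ψ K)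
    (hpar : M.ψ.transpose = -M.ψ ∨ (M.ψ.transpose = M.ψ ∧ Odd n)) :
    (∀ (a b : ℕ) (t : Tensor n a b ℚ), IsTate M l t → M.IsHodge t ∧
      ∀ (l' : ℕ) [Fact l'.Prime] (g : Gal F), act (M.ρ l' g) (t.base ℚ_[l']) = t.base ℚ_[l']) ∧
    (Closed M → ∀ (a b : ℕ) (t : Tensor n a b ℚ), t ∈ M.mot a b ↔ IsTate M l t) ∧
    ((∀ t : Tensor n 2 2 ℚ, M.IsHodge t → IsTate M l t) →
      (∀ (a b : ℕ) (t : Tensor n a b ℚ), M.IsHodge t ↔ IsTate M l t) ∧
      (Closed M → ∀ (a b : ℕ) (t : Tensor n a b ℚ), M.IsHodge t ↔ t ∈ M.mot a b) ∧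
      ∀ (K : Type) [Field K] [CharZero K], M.Gsigma K = Sim M.ψ K) := by
  have hfix := fun {a b : ℕ} (t : Tensor n a b ℚ) (ht : IsTate M l t) =>
    sim_fix_tate M l hZ t ht
  have hA : ∀ (a b : ℕ) (t : Tensor n a b ℚ), IsTate M l t → M.IsHodge t ∧
      ∀ (l' : ℕ) [Fact l'.Prime] (g : Gal F),
        act (M.ρ l' g) (t.base ℚ_[l']) = t.base ℚ_[l'] := by
    intro a b t ht
    constructor
    · intro z
      refine hfix t ht ℂ _ ?_
      rw [st_TEN.2 ℂ n M.ψ M.ψ_det]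
      exact hodge_pol M z
    · intro l' _ g
      exact hfix t ht ℚ_[l'] _ (M.mem_Sim l' g)
  have hB : Closed M → ∀ (a b : ℕ) (t : Tensor n a b ℚ), t ∈ M.mot a b ↔ IsTate M l t := by
    intro hcl a b t
    constructor
    · intro ht
      refine ⟨⊤, ?_, fun g _ => M.mot_gal a b t ht l g⟩
      rw [Subgroup.coe_top]
      exact isOpen_univ
    · intro ht
      refine hcl a b t fun g hg => hfix t ht ℂ g ?_
      rw [st_TEN.2 ℂ n M.ψ M.ψ_det]
      exact hg 2 2 _ M.mot_pol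
  refine ⟨hA, hB, ?_⟩
  intro hT
  have hS : ∀ (K : Type) [Field K] [CharZero K] (a b : ℕ) (t : Tensor n a b ℚ), M.IsHodge t →
      ∀ g ∈ Sim M.ψ K, act g (t.base K) = t.base K := by
    refine h22 F S n w h M hw hpar ?_
    intro t ht g hg
    have h1 := hfix t (hT t ht) ℚ g hg
    rwa [base_rat] at h1
  have hC : ∀ (a b : ℕ) (t : Tensor n a b ℚ), M.IsHodge t ↔ IsTate M l t := by
    intro a b t
    constructor
    · intro ht
      refine ⟨⊤, ?_, fun g _ => hS ℚ_[l] a b t ht _ (M.mem_Sim l g)⟩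
      rw [Subgroup.coe_top]
      exact isOpen_univ
    · intro ht
      exact (hA a b t ht).1
  refine ⟨hC, fun hcl a b t => (hC a b t).trans (hB hcl a b t).symm, ?_⟩
  intro K _ _
  apply Set.Subset.antisymm
  · intro g hg
    rw [st_TEN.2 K n M.ψ M.ψ_det]
    exact hg 2 2 _ (hodge_pol M)
  · intro g hg a b t ht
    exact hS K a b t ht g hg

/-- the parity of the rank, from the Lie algebra -/
theorem parity_of_mum (hS : ∀ p ∈ S, p.Prime) (M : PMot F S n w h) (l : ℕ) [Fact l.Prime]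
    (p₀ : ℕ) (hp₀ : p₀.Prime) (hM : M.Mum l p₀) (hL : M.Large l) :
    M.ψ.transpose = -M.ψ ∨ (M.ψ.transpose = M.ψ ∧ Odd n) := by
  obtain ⟨h7, hc⟩ := hL.crit
  have irr : IsIrr (mat (M.ρ l)) :=
    (st_IRM2 (st_TRI2 st_IDX (st_TRC st_INR st_CYC st_FRE) (st_TRF2 st_FRE) st_FRE st_CYC)
      st_PRO st_LIN) F S hS n w h M l p₀ hp₀ hM
  obtain ⟨H, -, hnor, hopen, e, he, hHe⟩ := exists_core (⊤ : Subgroup (Gal F)) (by
    rw [Subgroup.coe_top]
    exact isOpen_univ)
  exact parity M l (M.lie_full2 st_ZAR st_LOG st_GRD st_CORE st_ABS st_IDX st_FRE st_CYC l p₀ hp₀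
    hM irr h7 hc H hopen hnor e he hHe).2

theorem zc_eq (hS : ∀ p ∈ S, p.Prime) (M : PMot F S n w h) (hw : 0 < w) (l : ℕ) [Fact l.Prime]
    (p₀ : ℕ) (hp₀ : p₀.Prime) (hM : M.Mum l p₀) (hL : M.Large l) (K : Type) [Field K]
    [Algebra ℚ_[l] K] (H : Subgroup (Gal F)) (hH : IsOpen (H : Set (Gal F))) :
    ZC (M.ρ l '' H) K = Sim M.ψ K := by
  obtain ⟨h7, hc⟩ := hL.crit
  exact (main2 F S hS n w h M hw l p₀ hp₀ hM h7 hc K).1 H hH

end Mot

end HD
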