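import Pool.Agent.Helper6.HD.Base

/-!
# Hodge tensors are killed by the derivative of the Hodge cocharacter
-/

set_option autoImplicit false

open NumberField MU MT

namespace HD

section Act

variable {K : Type} [Field K] {n : ℕ}

theorem act_mul {a b : ℕ} (g g' : Matrix.GeneralLinearGroup (Fin n) K) (t : Tensor n a b K) :
    act g (act g' t) = act (g * g') t := by
  have h1 : (Matrix.of (act g' t) : Matrix (Fin a → Fin n) (Fin b → Fin n) K) =
      tp a (g' : Matrix (Fin n) (Fin n) K) * Matrix.of t *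
        tp b ((g'⁻¹ : Matrix.GeneralLinearGroup (Fin n) K) : Matrix (Fin n) (Fin n) K) := by
    rw [act_eq]
    rfl
  rw [act_eq g, act_eq (g * g'), h1, Units.val_mul, tp_mul, mul_inv_rev, Units.val_mul, tp_mul]
  simp only [Matrix.mul_assoc]

theorem act_one {a b : ℕ} (t : Tensor n a b K) :
    act (1 : Matrix.GeneralLinearGroup (Fin n) K) t = t := by
  rw [act_eq, inv_one, Units.val_one, tp_one, tp_one, Matrix.one_mul, Matrix.mul_one]
  rfl

theorem tp_diagonal (a : ℕ) (d : Fin n → K) :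
    tp a (Matrix.diagonal d) = Matrix.diagonal (fun i : Fin a → Fin n => ∏ s, d (i s)) := by
  ext i j
  unfold MT.tp
  by_cases h : i = j
  · subst h
    simp
  · rw [Matrix.diagonal_apply_ne _ h]
    obtain ⟨k, hk⟩ := Function.ne_iff.mp h
    exact Finset.prod_eq_zero (Finset.mem_univ k) (Matrix.diagonal_apply_ne _ hk)

theorem dtp_diagonal (a : ℕ) (d : Fin n → K) :
    dtp a (Matrix.diagonal d) = Matrix.diagonal (fun i : Fin a → Fin n => ∑ s, d (i s)) := by
  ext i j
  unfold dtp
  rw [Matrix.sum_apply]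
  by_cases h : i = j
  · subst h
    rw [Matrix.diagonal_apply_eq]
    refine Finset.sum_congr rfl fun s _ => ?_
    rw [tpf_update, Matrix.diagonal_apply_eq]
    simp
  · rw [Matrix.diagonal_apply_ne _ h]
    refine Finset.sum_eq_zero fun s _ => ?_
    rw [tpf_update]
    obtain ⟨k, hk⟩ := Function.ne_iff.mp h
    by_cases hs : k = s
    · subst hs
      rw [Matrix.diagonal_apply_ne _ hk, zero_mul]
    · rw [Finset.prod_eq_zero (i := k), mul_zero]
      · simp [hs]
      · exact Matrix.one_apply_ne hk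

end Act

theorem key_le (P Q P' Q' : ℕ) (hs : P + Q = P' + Q') (hle : P ≤ P')
    (hz : ∀ z : ℂ, z * (starRingEnd ℂ) z = 1 →
      z ^ P * (starRingEnd ℂ) z ^ Q = z ^ P' * (starRingEnd ℂ) z ^ Q') : P = P' := by
  set N : ℕ := 2 * (P' - P) + 1 with hN
  have hN0 : N ≠ 0 := by omega
  have hprim := Complex.isPrimitiveRoot_exp N hN0
  set z := Complex.exp (2 * Real.pi * Complex.I / N) with hzdef
  have hz1 : ‖z‖ = 1 := Complex.norm_eq_one_of_pow_eq_one hprim.pow_eq_one hN0
  have hzz : z * (starRingEnd ℂ) z = 1 := by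
    rw [Complex.mul_conj, Complex.normSq_eq_norm_sq, hz1]
    simp
  have h1 := hz z hzz
  have h2 : z ^ (2 * (P' - P)) = 1 := by
    have h3 : z ^ P * (starRingEnd ℂ) z ^ Q * (z ^ Q * (starRingEnd ℂ) z ^ P) = 1 := by
      have : z ^ P * (starRingEnd ℂ) z ^ Q * (z ^ Q * (starRingEnd ℂ) z ^ P) =
          (z * (starRingEnd ℂ) z) ^ P * (z * (starRingEnd ℂ) z) ^ Q := by
        rw [mul_pow, mul_pow]; ring
      rw [this, hzz, one_pow, one_pow, mul_one]
    rw [h1] at h3
    have h4 : z ^ P' * (starRingEnd ℂ) z ^ Q' * (z ^ Q * (starRingEnd ℂ) z ^ P) =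
        z ^ (P' + Q) * (starRingEnd ℂ) z ^ (Q' + P) := by
      rw [pow_add, pow_add]; ring
    rw [h4] at h3
    have h5 : P' + Q = 2 * (P' - P) + (Q' + P) := by omega
    rw [h5, pow_add, mul_assoc, ← mul_pow, hzz, one_pow, mul_one] at h3
    exact h3
  have h6 := (hprim.pow_eq_one_iff_dvd _).mp h2
  have h7 : 2 * (P' - P) = 0 := by
    by_contra h8
    have h9 := Nat.le_of_dvd (Nat.pos_of_ne_zero h8) h6
    omega
  omega

theorem key_eq (P Q P' Q' : ℕ) (hs : P + Q = P' + Q')
    (hz : ∀ z : ℂ, z * (starRingEnd ℂ) z = 1 →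
      z ^ P * (starRingEnd ℂ) z ^ Q = z ^ P' * (starRingEnd ℂ) z ^ Q') : P = P' := by
  rcases le_total P P' with h | h
  · exact key_le P Q P' Q' hs h hz
  · exact (key_le P' Q' P Q hs.symm h fun z hzz => (hz z hzz).symm).symm

theorem hz_coe {n : ℕ} (B : Matrix.GeneralLinearGroup (Fin n) ℂ) (h : Fin n → ℕ) (w : ℕ)
    (z : ℂˣ) : (hz B h w z : Matrix (Fin n) (Fin n) ℂ) =
      (B : Matrix (Fin n) (Fin n) ℂ) *
        Matrix.diagonal (fun j => (z : ℂ) ^ h j * (starRingEnd ℂ) (z : ℂ) ^ (w - h j)) *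
      ((B⁻¹ : Matrix.GeneralLinearGroup (Fin n) ℂ) : Matrix (Fin n) (Fin n) ℂ) := by
  unfold hz
  rw [Units.val_mul, Units.val_mul]
  rfl

theorem st_HOD : ST_HOD := by
  intro n w h B a b t hw hle ht
  set T : Matrix (Fin a → Fin n) (Fin b → Fin n) ℂ := Matrix.of (t.base ℂ) with hT
  set s : Tensor n a b ℂ := act B⁻¹ (t.base ℂ) with hs
  have hBs : act B s = t.base ℂ := by rw [hs, act_mul, mul_inv_cancel, act_one]
  -- the characters
  have hfix : ∀ z : ℂˣ, ∀ i j, s i j ≠ 0 →
      (∏ k, ((z : ℂ) ^ h (i k) * (starRingEnd ℂ) (z : ℂ) ^ (w - h (i k)))) =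
        ∏ k, ((z : ℂ) ^ h (j k) * (starRingEnd ℂ) (z : ℂ) ^ (w - h (j k))) := by
    intro z i j hij
    -- the diagonal unit
    have h1 : act (B⁻¹ * hz B h w z * B) s = s := by
      rw [← act_mul, ← act_mul, hBs, ht z]
    rw [act_fix_iff] at h1
    have h2 : ((B⁻¹ * hz B h w z * B : Matrix.GeneralLinearGroup (Fin n) ℂ) :
        Matrix (Fin n) (Fin n) ℂ) =
        Matrix.diagonal (fun j => (z : ℂ) ^ h j * (starRingEnd ℂ) (z : ℂ) ^ (w - h j)) := by
      rw [Units.val_mul, Units.val_mul, hz_coe]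
      simp only [Matrix.mul_assoc]
      rw [Units.inv_mul, Matrix.mul_one, ← Matrix.mul_assoc, Units.inv_mul, Matrix.one_mul]
    rw [h2, tp_diagonal, tp_diagonal] at h1
    have h3 := congrFun (congrFun h1 i) j
    rw [Matrix.diagonal_mul, Matrix.mul_diagonal, Matrix.of_apply] at h3
    exact mul_right_cancel₀ hij (h3.trans (mul_comm _ _))
  have hprod : ∀ (c : ℕ) (i : Fin c → Fin n) (z : ℂ),
      (∏ k, (z ^ h (i k) * (starRingEnd ℂ) z ^ (w - h (i k)))) =
        z ^ (∑ k, h (i k)) * (starRingEnd ℂ) z ^ (∑ k, (w - h (i k))) := by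
    intro c i z
    rw [Finset.prod_mul_distrib, Finset.prod_pow_eq_pow_sum, Finset.prod_pow_eq_pow_sum]
  have hsum : ∀ (c : ℕ) (i : Fin c → Fin n), (∑ k, h (i k)) + (∑ k, (w - h (i k))) = c * w := by
    intro c i
    rw [← Finset.sum_add_distrib]
    have : ∀ k ∈ (Finset.univ : Finset (Fin c)), h (i k) + (w - h (i k)) = w := by
      intro k _
      have := hle (i k)
      omega
    rw [Finset.sum_congr rfl this, Finset.sum_const, Finset.card_univ, Fintype.card_fin,
      smul_eq_mul]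
  have hab : ∀ i j, s i j ≠ 0 → a = b := by
    intro i j hij
    have h1 := hfix (Units.mk0 2 two_ne_zero) i j hij
    rw [Units.val_mk0, hprod, hprod] at h1
    have h2 : (starRingEnd ℂ) (2 : ℂ) = 2 := map_ofNat (starRingEnd ℂ) 2
    rw [h2, ← pow_add, ← pow_add, hsum, hsum] at h1
    have h3 : (2 : ℕ) ^ (a * w) = 2 ^ (b * w) := by exact_mod_cast h1
    have h4 := Nat.pow_right_injective (le_refl 2) h3
    exact Nat.eq_of_mul_eq_mul_right hw h4
  have heq : ∀ i j, s i j ≠ 0 → (∑ k, h (i k)) = ∑ k, h (j k) := by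
    intro i j hij
    refine key_eq _ (∑ k, (w - h (i k))) _ (∑ k, (w - h (j k))) ?_ ?_
    · rw [hsum, hsum, hab i j hij]
    · intro z hzz
      have hz0 : z ≠ 0 := by
        rintro rfl
        rw [zero_mul] at hzz
        exact zero_ne_one hzz
      have h1 := hfix (Units.mk0 z hz0) i j hij
      rw [Units.val_mk0, hprod, hprod] at h1
      exact h1
  constructor
  · by_cases hc : ∃ i j, s i j ≠ 0
    · obtain ⟨i, j, hij⟩ := hc
      exact Or.inl (hab i j hij)
    · right
      push Not at hc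
      have hs0 : s = 0 := by
        funext i j
        exact hc i j
      have h1 : t.base ℂ = 0 := by
        rw [← hBs, hs0, act_eq]
        have h2 : (Matrix.of (0 : Tensor n a b ℂ) : Matrix (Fin a → Fin n) (Fin b → Fin n) ℂ) =
            0 := rfl
        rw [h2, Matrix.mul_zero, Matrix.zero_mul]
        rfl
      funext i j
      have h2 := congrFun (congrFun h1 i) j
      have h3 : ((t i j : ℚ) : ℂ) = 0 := h2
      exact_mod_cast h3
  · have h1 : Kill (Matrix.diagonal (fun j => (h j : ℂ))) s := by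
      unfold Kill
      rw [dtp_diagonal, dtp_diagonal]
      ext i j
      rw [Matrix.diagonal_mul, Matrix.mul_diagonal, Matrix.of_apply]
      by_cases hij : s i j = 0
      · rw [hij, mul_zero, zero_mul]
      · have h2 := heq i j hij
        have h3 : (∑ k, (h (i k) : ℂ)) = ∑ k, (h (j k) : ℂ) := by exact_mod_cast h2
        rw [h3, mul_comm]
    have h2 := h1.conj B
    rw [hBs] at h2
    exact h2

end HD
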